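import Pool.Agent.U770.MH.Rat

/-!
# Conjugation of rational maps: existence and uniqueness of the conjugate
-/

set_option autoImplicit false

namespace Pool.Agent.U770.MH

open Pool.Agent.Helper259.AbsHt Pool.Agent.Helper259.RatDef Pool.Agent.Helper259.RatMaps
open MvPolynomial (eval eval₂)

/-- the exponent vectors of degree `d` -/
noncomputable def ex (d i : ℕ) : Fin 2 →₀ ℕ := Finsupp.single 0 i + Finsupp.single 1 (d - i)

theorem ex_zero (d i : ℕ) : ex d i 0 = i := by simp [ex]

theorem ex_one (d i : ℕ) : ex d i 1 = d - i := by simp [ex]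

theorem eval_homog {d : ℕ} {H : MvPolynomial (Fin 2) Qbar} (hH : H.IsHomogeneous d)
    (v : Fin 2 → Qbar) : eval v H = ∑ i : Fin (d + 1), H.coeff (ex d i) * v 0 ^ (i : ℕ) *
      v 1 ^ (d - (i : ℕ)) := by
  classical
  rw [MvPolynomial.eval_eq']
  have hinj : Function.Injective (fun i : Fin (d + 1) => ex d i) := by
    intro i j hij
    have := congrArg (fun s : Fin 2 →₀ ℕ => s 0) hij
    simp only [ex_zero] at this
    exact Fin.ext this
  have hsub : H.support ⊆ Finset.univ.image (fun i : Fin (d + 1) => ex d i) := by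
    intro s hs
    have h1 := hH (MvPolynomial.mem_support_iff.mp hs)
    have h2 : s 0 + s 1 = d := by
      have h3 : Finsupp.degree s = d := by
        rw [← h1, Finsupp.degree_eq_weight_one]; rfl
      rw [← h3, Finsupp.degree_eq_sum, Fin.sum_univ_two]
    rw [Finset.mem_image]
    refine ⟨⟨s 0, by omega⟩, Finset.mem_univ _, ?_⟩
    ext k
    fin_cases k
    · simp [ex]
    · simp [ex]
      omega
  rw [Finset.sum_subset hsub, Finset.sum_image (fun i _ j _ h => hinj h)]
  · refine Finset.sum_congr rfl fun i _ => ?_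
    rw [Fin.prod_univ_two, ex_zero, ex_one]
    ring
  · intro s _ hs
    rw [MvPolynomial.notMem_support_iff.1 hs, zero_mul]

theorem exists_coeffs {d : ℕ} (F : Fin 2 → MvPolynomial (Fin 2) Qbar)
    (hF : ∀ j, (F j).IsHomogeneous d) :
    ∃ c : Fin (2 * d + 1 + 1) → Qbar, ∀ v, forms c v = fun j => eval v (F j) := by
  refine ⟨fun k => if (k : ℕ) < d + 1 then (F 0).coeff (ex d k) else
    (F 1).coeff (ex d (k - (d + 1))), fun v => ?_⟩
  funext j
  fin_cases j
  · show forms _ v 0 = eval v (F 0)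
    rw [forms_zero, eval_homog (hF 0)]
    refine Finset.sum_congr rfl fun i _ => ?_
    have := i.2
    simp only [this, if_true]
  · show forms _ v 1 = eval v (F 1)
    rw [forms_one, eval_homog (hF 1)]
    refine Finset.sum_congr rfl fun i _ => ?_
    have h1 : ¬ (d + 1 + (i : ℕ) < d + 1) := by omega
    have h2 : d + 1 + (i : ℕ) - (d + 1) = i := by omega
    simp only [h1, if_false, h2]

/-- the linear forms describing a linear map -/
noncomputable def lin (A : Module.End Qbar (Fin 2 → Qbar)) (k : Fin 2) : MvPolynomial (Fin 2) Qbar :=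
  ∑ l, MvPolynomial.C (A (Pi.single l 1) k) * MvPolynomial.X l

theorem eval_lin (A : Module.End Qbar (Fin 2 → Qbar)) (k : Fin 2) (v : Fin 2 → Qbar) :
    eval v (lin A k) = A v k := by
  have h1 : v = ∑ l, v l • (Pi.single l 1 : Fin 2 → Qbar) := by
    funext k
    fin_cases k <;> simp
  conv_rhs => rw [h1]
  rw [lin, map_sum, map_sum, Finset.sum_apply]
  refine Finset.sum_congr rfl fun l _ => ?_
  rw [map_mul, MvPolynomial.eval_C, MvPolynomial.eval_X, map_smul, Pi.smul_apply, smul_eq_mul]
  ring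

theorem lin_homog (A : Module.End Qbar (Fin 2 → Qbar)) (k : Fin 2) : (lin A k).IsHomogeneous 1 := by
  unfold lin
  refine MvPolynomial.IsHomogeneous.sum _ _ _ fun l _ => ?_
  have := (MvPolynomial.isHomogeneous_C (Fin 2) (A (Pi.single l 1) k)).mul
    (MvPolynomial.isHomogeneous_X Qbar l)
  rwa [zero_add] at this

theorem exists_conj_forms {d : ℕ} (c : Fin (2 * d + 1 + 1) → Qbar)
    (A B : Module.End Qbar (Fin 2 → Qbar)) :
    ∃ c' : Fin (2 * d + 1 + 1) → Qbar, ∀ v, forms c' v = B (forms c (A v)) := by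
  obtain ⟨c', hc'⟩ := exists_coeffs (d := d)
    (fun k => ∑ l, MvPolynomial.C (B (Pi.single l 1) k) *
      MvPolynomial.bind₁ (lin A) (mforms c l)) (by
      intro k
      refine MvPolynomial.IsHomogeneous.sum _ _ _ fun l _ => ?_
      have h1 : (MvPolynomial.bind₁ (lin A) (mforms c l)).IsHomogeneous (1 * d) :=
        (mforms_homog c l).aeval (lin A) (lin_homog A)
      have := (MvPolynomial.isHomogeneous_C (Fin 2) (B (Pi.single l 1) k)).mul h1
      rwa [zero_add, one_mul] at this)
  refine ⟨c', fun v => ?_⟩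
  rw [hc']
  funext k
  have h2 : ∀ l, eval v (MvPolynomial.bind₁ (lin A) (mforms c l)) = forms c (A v) l := by
    intro l
    rw [MvPolynomial.bind₁, MvPolynomial.aeval_def, MvPolynomial.algebraMap_eq,
      ← MvPolynomial.coe_eval₂Hom, ← RingHom.comp_apply, MvPolynomial.comp_eval₂Hom]
    have h3 : ((eval v).comp MvPolynomial.C : Qbar →+* Qbar) = RingHom.id Qbar := by
      ext r
      simp
    rw [h3]
    have h4 : (fun i => eval v (lin A i)) = A v := by
      funext i
      exact eval_lin A i v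
    rw [h4]
    exact congrFun (eval_mforms c (A v)) l
  have h5 := eval_lin B k (forms c (A v))
  rw [← h5, lin, map_sum, map_sum]
  refine Finset.sum_congr rfl fun l _ => ?_
  rw [map_mul, map_mul, MvPolynomial.eval_C, MvPolynomial.eval_C, MvPolynomial.eval_X, h2]

/-- every rational map has a conjugate by every element of `GL_2` -/
theorem exists_conj {d : ℕ} (φ : GL2) (f : Rat d) : ∃ f' : Rat d, IsConjBy φ f f' := by
  obtain ⟨c', hc'⟩ := exists_conj_forms f.1.rep φ.toLinearMap φ.symm.toLinearMap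
  simp only [LinearEquiv.coe_coe] at hc'
  have hA : ∀ v, φ v = 0 → v = 0 := fun v hv => φ.map_eq_zero_iff.1 hv
  have hB : ∀ v, φ.symm v = 0 → v = 0 := fun v hv => φ.symm.map_eq_zero_iff.1 hv
  have hnz : ∀ v, forms c' v = 0 → v = 0 := fun v hv => by
    rw [hc'] at hv
    exact hA v (f.2 _ (hB _ hv))
  have hc0 : c' ≠ 0 := by
    rintro rfl
    have h1 : forms (0 : Fin (2 * d + 1 + 1) → Qbar) (Pi.single 0 1) = 0 := by
      have := forms_smul_left (0 : Fin (2 * d + 1 + 1) → Qbar) 0 (Pi.single 0 1)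
      rwa [smul_zero, zero_smul] at this
    have h2 := congrFun (hnz _ h1) 0
    simp at h2
  obtain ⟨a, ha⟩ := Projectivization.exists_smul_eq_mk_rep Qbar c' hc0
  have hrep : ∀ v, forms (Projectivization.mk Qbar c' hc0 : PSpace (2 * d + 1)).rep v =
      (a : Qbar) • φ.symm (forms f.1.rep (φ v)) := by
    intro v
    rw [← ha, show (a • c' : Fin (2 * d + 1 + 1) → Qbar) = (a : Qbar) • c' from rfl,
      forms_smul_left, hc']
  refine ⟨⟨Projectivization.mk Qbar c' hc0, fun v hv => ?_⟩, fun P => ?_⟩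
  · rw [hrep] at hv
    have h1 := (smul_eq_zero.1 hv).resolve_left a.ne_zero
    exact hA v (f.2 _ (hB _ h1))
  · have hP : φ P.rep ≠ 0 := fun h => P.rep_nonzero (hA _ h)
    obtain ⟨b, hb⟩ := Projectivization.exists_smul_eq_mk_rep Qbar (φ P.rep) hP
    have h2 : (act φ P).rep = (b : Qbar) • φ P.rep := by
      rw [act, ← hb]
      rfl
    have hQ0 : forms f.1.rep (act φ P).rep ≠ 0 := fun h => (act φ P).rep_nonzero (f.2 _ h)
    obtain ⟨e, he⟩ := Projectivization.exists_smul_eq_mk_rep Qbar _ hQ0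
    have h3 : (toMap f (act φ P)).rep = (e : Qbar) • forms f.1.rep (act φ P).rep := by
      rw [toMap, ← he]
      rfl
    rw [act, toMap, Projectivization.mk_eq_mk_iff']
    refine ⟨(a : Qbar) * ((e : Qbar) * (b : Qbar) ^ d)⁻¹, ?_⟩
    show _ = forms (Projectivization.mk Qbar c' hc0 : PSpace (2 * d + 1)).rep P.rep
    rw [hrep, h3, h2, forms_smul, map_smul, map_smul, smul_smul, smul_smul]
    congr 1
    have h4 : (e : Qbar) ≠ 0 := e.ne_zero
    have h5 : (b : Qbar) ^ d ≠ 0 := pow_ne_zero _ b.ne_zero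
    field_simp

section uniq

open Polynomial

/-- dehomogenized forms -/
noncomputable def dp {d : ℕ} (c : Fin (2 * d + 1 + 1) → Qbar) (j : Fin 2) : Qbar[X] :=
  ∑ i : Fin (d + 1), C (c ⟨(j : ℕ) * (d + 1) + i, by
    have := j.2
    have := i.2
    have h : (j : ℕ) ≤ 1 := by omega
    nlinarith⟩) * X ^ (i : ℕ)

theorem eval_dp {d : ℕ} (c : Fin (2 * d + 1 + 1) → Qbar) (j : Fin 2) (t : Qbar) :
    (dp c j).eval t = forms c ![t, 1] j := by
  fin_cases j
  · show _ = forms c ![t, 1] 0
    rw [forms_zero, dp, eval_finsetSum]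
    refine Finset.sum_congr rfl fun i _ => ?_
    simp
  · show _ = forms c ![t, 1] 1
    rw [forms_one, dp, eval_finsetSum]
    refine Finset.sum_congr rfl fun i _ => ?_
    simp

theorem coeff_dp {d : ℕ} (c : Fin (2 * d + 1 + 1) → Qbar) (j : Fin 2) (i : Fin (d + 1)) :
    (dp c j).coeff i = c ⟨(j : ℕ) * (d + 1) + i, by
      have := j.2
      have := i.2
      have h : (j : ℕ) ≤ 1 := by omega
      nlinarith⟩ := by
  rw [dp, finsetSum_coeff, Finset.sum_eq_single i]
  · rw [coeff_C_mul_X_pow, if_pos rfl]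
  · intro k _ hk
    rw [coeff_C_mul_X_pow, if_neg (fun h => hk (Fin.ext h.symm))]
  · intro h
    exact absurd (Finset.mem_univ _) h

theorem coprime_dp {d : ℕ} {c : Fin (2 * d + 1 + 1) → Qbar}
    (hc : ∀ v, forms c v = 0 → v = 0) : IsCoprime (dp c 0) (dp c 1) := by
  rw [Polynomial.isCoprime_iff_aeval_ne_zero_of_isAlgClosed Qbar Qbar]
  intro t
  rw [Polynomial.coe_aeval_eq_eval, eval_dp, eval_dp]
  by_contra hcon
  push Not at hcon
  have h1 : forms c ![t, 1] = 0 := by
    funext j
    fin_cases j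
    · exact hcon.1
    · exact hcon.2
  have h2 := congrFun (hc _ h1) 1
  simp at h2

/-- a rational map is determined by its values -/
theorem toMap_injective {d : ℕ} {f f' : Rat d} (h : ∀ P, toMap f P = toMap f' P) : f = f' := by
  set c := f.1.rep with hc
  set c' := f'.1.rep with hc'
  have hcop := coprime_dp f.2
  have hcop' := coprime_dp f'.2
  -- the two pairs are proportional at every point
  have hprop : dp c 0 * dp c' 1 = dp c 1 * dp c' 0 := by
    apply Polynomial.funext
    intro t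
    rw [eval_mul, eval_mul, eval_dp, eval_dp, eval_dp, eval_dp]
    have ht : (![t, 1] : Fin 2 → Qbar) ≠ 0 := by
      intro h0
      have := congrFun h0 1
      simp at this
    have h1 := h (Projectivization.mk Qbar ![t, 1] ht)
    obtain ⟨b, hb⟩ := Projectivization.exists_smul_eq_mk_rep Qbar (![t, 1] : Fin 2 → Qbar) ht
    rw [toMap, toMap, Projectivization.mk_eq_mk_iff'] at h1
    obtain ⟨a, ha⟩ := h1
    have hb' : (Projectivization.mk Qbar ![t, 1] ht : PSpace 1).rep = (b : Qbar) • ![t, 1] := by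
      rw [← hb]; rfl
    rw [hb', forms_smul, forms_smul] at ha
    have h3 : a • forms c' ![t, 1] = forms c ![t, 1] := by
      have hbd : (b : Qbar) ^ d ≠ 0 := pow_ne_zero _ b.ne_zero
      have h4 := congrArg (fun w : Fin 2 → Qbar => ((b : Qbar) ^ d)⁻¹ • w) ha
      simp only [smul_smul] at h4
      rw [inv_mul_cancel₀ hbd, one_smul, mul_comm a, ← mul_assoc, inv_mul_cancel₀ hbd,
        one_mul] at h4
      exact h4
    rw [← h3]
    simp only [Pi.smul_apply, smul_eq_mul]
    ring
  obtain ⟨a, b, hab⟩ := hcop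
  obtain ⟨a', b', hab'⟩ := hcop'
  set u := a * dp c' 0 + b * dp c' 1 with hu
  set u' := a' * dp c 0 + b' * dp c 1 with hu'
  have h0 : dp c 0 * u = dp c' 0 := by
    calc dp c 0 * u = a * dp c 0 * dp c' 0 + b * (dp c 0 * dp c' 1) := by rw [hu]; ring
      _ = (a * dp c 0 + b * dp c 1) * dp c' 0 := by rw [hprop]; ring
      _ = dp c' 0 := by rw [hab, one_mul]
  have h1 : dp c 1 * u = dp c' 1 := by
    calc dp c 1 * u = a * (dp c 1 * dp c' 0) + b * dp c 1 * dp c' 1 := by rw [hu]; ring
      _ = (a * dp c 0 + b * dp c 1) * dp c' 1 := by rw [← hprop]; ring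
      _ = dp c' 1 := by rw [hab, one_mul]
  have h0' : dp c' 0 * u' = dp c 0 := by
    calc dp c' 0 * u' = a' * dp c' 0 * dp c 0 + b' * (dp c 1 * dp c' 0) := by rw [hu']; ring
      _ = (a' * dp c' 0 + b' * dp c' 1) * dp c 0 := by rw [← hprop]; ring
      _ = dp c 0 := by rw [hab', one_mul]
  have h1' : dp c' 1 * u' = dp c 1 := by
    calc dp c' 1 * u' = a' * (dp c 0 * dp c' 1) + b' * dp c' 1 * dp c 1 := by rw [hu']; ring
      _ = (a' * dp c' 0 + b' * dp c' 1) * dp c 1 := by rw [hprop]; ring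
      _ = dp c 1 := by rw [hab', one_mul]
  have huu : u * u' = 1 := by
    by_cases hz : dp c 0 = 0
    · have hz1 : dp c 1 ≠ 0 := by
        intro h2
        rw [hz, h2, mul_zero, mul_zero, add_zero] at hab
        exact zero_ne_one hab
      apply mul_left_cancel₀ hz1
      rw [← mul_assoc, h1, h1', mul_one]
    · apply mul_left_cancel₀ hz
      rw [← mul_assoc, h0, h0', mul_one]
  have hunit : IsUnit u := IsUnit.of_mul_eq_one _ huu
  obtain ⟨r, hr, hru⟩ := Polynomial.isUnit_iff.1 hunit
  have hcc : c' = r • c := by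
    funext k
    by_cases hk : (k : ℕ) < d + 1
    · have h2 := congrArg (fun p : Qbar[X] => p.coeff k) h0
      have h3 := coeff_dp c 0 ⟨k, hk⟩
      have h4 := coeff_dp c' 0 ⟨k, hk⟩
      simp only [Fin.val_zero, zero_mul, zero_add] at h3 h4
      rw [← hru, coeff_mul_C, h3, h4] at h2
      rw [Pi.smul_apply, smul_eq_mul, mul_comm]
      exact h2.symm
    · have hk2 := k.2
      have h2 := congrArg (fun p : Qbar[X] => p.coeff ((k : ℕ) - (d + 1))) h1
      have h3 := coeff_dp c 1 ⟨k - (d + 1), by omega⟩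
      have h4 := coeff_dp c' 1 ⟨k - (d + 1), by omega⟩
      have h5 : ((1 : Fin 2) : ℕ) * (d + 1) + ((k : ℕ) - (d + 1)) = k := by
        simp only [Fin.val_one]
        omega
      simp only [h5] at h3 h4
      rw [← hru, coeff_mul_C, h3, h4] at h2
      rw [Pi.smul_apply, smul_eq_mul, mul_comm]
      exact h2.symm
  apply Subtype.ext
  rw [← Projectivization.mk_rep f.1, ← Projectivization.mk_rep f'.1,
    Projectivization.mk_eq_mk_iff']
  refine ⟨r⁻¹, ?_⟩
  show r⁻¹ • c' = c
  rw [hcc, smul_smul, inv_mul_cancel₀ hr.ne_zero, one_smul]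

end uniq

/-- **The conjugate of a rational map** by an element of `GL_2` exists and is unique. -/
theorem existsUnique_conj {d : ℕ} (φ : GL2) (f : Rat d) : ∃! f' : Rat d, IsConjBy φ f f' := by
  obtain ⟨f', hf'⟩ := exists_conj φ f
  refine ⟨f', hf', fun f'' hf'' => toMap_injective fun P => ?_⟩
  rw [hf'' P, hf' P]

end Pool.Agent.U770.MH
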