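import Pool.Agent.U770.MH.Sel

/-!
# Morphisms of quasi-projective varieties and heights

`main`: for a morphism `π` from a quasi-projective variety `X` to a projective space, the height of
`π x` is, up to constants, the least height of a point in the fibre of `π` through `x`.
-/

set_option autoImplicit false

namespace Pool.Agent.U770.MH

open Pool.Agent.Helper259.AbsHt Pool.Agent.Helper259.RatDef Pool.Agent.Helper259.RatMaps
open MvPolynomial (eval eval₂)

/-- A quasi-projective variety: a locally closed subset of a projective space. -/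
def IsQuasiProjective {n : ℕ} (X : Set (PSpace n)) : Prop :=
  ∃ U Z : Set (PSpace n), IsZariskiOpen U ∧ IsZariskiOpen Zᶜ ∧ X = U ∩ Z

/-- The values of the forms `F 0, …, F m` at (the chosen homogeneous coordinates of) `P`. -/
noncomputable def values {n m : ℕ} (F : Fin (m + 1) → MvPolynomial (Fin (n + 1)) Qbar)
    (P : PSpace n) : Fin (m + 1) → Qbar := fun i => eval P.rep (F i)

/-- A morphism of quasi-projective varieties: in a neighbourhood of every point the map is given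
by forms of the same degree without common zero. -/
def IsMorphism {n m : ℕ} {X : Set (PSpace n)} {Y : Set (PSpace m)} (π : X → Y) : Prop :=
  ∀ P : X, ∃ U : Set (PSpace n), IsZariskiOpen U ∧ (P : PSpace n) ∈ U ∧
    ∃ (e : ℕ) (F : Fin (m + 1) → MvPolynomial (Fin (n + 1)) Qbar), (∀ i, (F i).IsHomogeneous e) ∧
      ∀ Q : X, (Q : PSpace n) ∈ U → ∃ h : values F Q ≠ 0,
        (π Q : PSpace m) = Projectivization.mk Qbar (values F Q) h

/-- the same with the values written out -/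
def IsMor {n m : ℕ} {X : Set (PSpace n)} {Y : Set (PSpace m)} (π : X → Y) : Prop :=
  ∀ P : X, ∃ U : Set (PSpace n), IsZariskiOpen U ∧ (P : PSpace n) ∈ U ∧
    ∃ (e : ℕ) (F : Fin (m + 1) → MvPolynomial (Fin (n + 1)) Qbar), (∀ i, (F i).IsHomogeneous e) ∧
      ∀ Q : X, (Q : PSpace n) ∈ U → ∃ h : (fun i => eval (Q : PSpace n).rep (F i)) ≠ 0,
        (π Q : PSpace m) = Projectivization.mk Qbar _ h

theorem isMorphism_iff {n m : ℕ} {X : Set (PSpace n)} {Y : Set (PSpace m)} (π : X → Y) :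
    IsMorphism π ↔ IsMor π := Iff.rfl

/-- the form `G` describes an affine piece of `X` on which `π` is given by forms -/
def IsChart {n m : ℕ} {X : Set (PSpace n)} {Y : Set (PSpace m)} (π : X → Y) (Z : Set (PSpace n))
    (G : MvPolynomial (Fin (n + 1)) Qbar) : Prop :=
  (∃ d, G.IsHomogeneous d) ∧
    ∃ (e : ℕ) (F : Fin (m + 1) → MvPolynomial (Fin (n + 1)) Qbar), (∀ i, (F i).IsHomogeneous e) ∧
      ∀ Q : PSpace n, Q ∈ Z → eval Q.rep G ≠ 0 → ∃ (hX : Q ∈ X)
        (h : (fun i => eval Q.rep (F i)) ≠ 0), (π ⟨Q, hX⟩ : PSpace m) = Projectivization.mk Qbar _ h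

variable {n m : ℕ} {X : Set (PSpace n)} {Y : Set (PSpace m)}

theorem exists_chart {π : X → Y} (hπ : IsMorphism π) {U Z : Set (PSpace n)} (hU : IsZariskiOpen U)
    (hX : X = U ∩ Z) (P : X) : ∃ G, IsChart π Z G ∧ eval (P : PSpace n).rep G ≠ 0 := by
  rw [isMorphism_iff] at hπ
  obtain ⟨V, ⟨TV, hTV, rfl⟩, hPV, e, F, hF, hV⟩ := hπ P
  obtain ⟨TU, hTU, rfl⟩ := hU
  obtain ⟨G₁, hG₁, h₁⟩ := hPV
  have hPU : (P : PSpace n) ∈ {P : PSpace n | ∃ F ∈ TU, eval P.rep F ≠ 0} := by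
    exact (hX.subset P.2).1
  obtain ⟨G₂, hG₂, h₂⟩ := hPU
  obtain ⟨d₁, hd₁⟩ := hTV G₁ hG₁
  obtain ⟨d₂, hd₂⟩ := hTU G₂ hG₂
  refine ⟨G₁ * G₂, ⟨⟨d₁ + d₂, hd₁.mul hd₂⟩, e, F, hF, fun Q hQZ hQ => ?_⟩, ?_⟩
  · rw [map_mul] at hQ
    have hQX : Q ∈ X := by
      rw [hX]
      exact ⟨⟨G₂, hG₂, right_ne_zero_of_mul hQ⟩, hQZ⟩
    obtain ⟨h, h'⟩ := hV ⟨Q, hQX⟩ ⟨G₁, hG₁, left_ne_zero_of_mul hQ⟩
    exact ⟨hQX, h, h'⟩
  · rw [map_mul]
    exact mul_ne_zero h₁ h₂

/-- finitely many charts suffice -/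
theorem finite_charts {π : X → Y} (hπ : IsMorphism π) {U Z : Set (PSpace n)} (hU : IsZariskiOpen U)
    (hX : X = U ∩ Z) : ∃ T : Finset (MvPolynomial (Fin (n + 1)) Qbar), (∀ G ∈ T, IsChart π Z G) ∧
      ∀ P : X, ∃ G ∈ T, eval (P : PSpace n).rep G ≠ 0 := by
  have hfg : (Submodule.span (MvPolynomial (Fin (n + 1)) Qbar) {G | IsChart π Z G}).FG :=
    IsNoetherian.noetherian _
  obtain ⟨T, hT, hspan⟩ := (Submodule.fg_span_iff_fg_span_finset_subset _).1 hfg
  refine ⟨T, fun G hG => hT hG, fun P => ?_⟩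
  by_contra hcon
  push Not at hcon
  obtain ⟨G, hG, hGP⟩ := exists_chart hπ hU hX P
  apply hGP
  have h1 : G ∈ Ideal.span (T : Set (MvPolynomial (Fin (n + 1)) Qbar)) := by
    have h2 : G ∈ Submodule.span (MvPolynomial (Fin (n + 1)) Qbar) {G | IsChart π Z G} :=
      Submodule.subset_span hG
    rw [hspan] at h2
    exact h2
  have h2 : Ideal.span (T : Set (MvPolynomial (Fin (n + 1)) Qbar)) ≤
      RingHom.ker (eval (P : PSpace n).rep) := by
    rw [Ideal.span_le]
    intro G' hG'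
    exact hcon G' hG'
  exact h2 h1

/-- lift of a polynomial in the coordinates of `x` to the ring of polynomials in `w`, `x`, `y` -/
noncomputable def lift (n m : ℕ) : MvPolynomial (Fin (n + 1)) Qbar →+*
    MvPolynomial (Option (Fin (n + 1))) (MvPolynomial (Fin (m + 1)) Qbar) :=
  MvPolynomial.eval₂Hom (MvPolynomial.C.comp MvPolynomial.C) (fun l => MvPolynomial.X (some l))

theorem eval_lift (y : Fin (m + 1) → Qbar) (x : Option (Fin (n + 1)) → Qbar)
    (F : MvPolynomial (Fin (n + 1)) Qbar) :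
    eval₂ (eval y) x (lift n m F) = eval (fun l => x (some l)) F := by
  have h : (MvPolynomial.eval₂Hom (eval y) x).comp (lift n m) = eval (fun l => x (some l)) := by
    apply MvPolynomial.ringHom_ext
    · intro r
      simp [lift]
    · intro i
      simp [lift]
  have := congrArg (fun f : MvPolynomial (Fin (n + 1)) Qbar →+* Qbar => f F) h
  simpa using this

/-- the equations of the graph of `π` -/
def system (n m : ℕ) (TZ : Set (MvPolynomial (Fin (n + 1)) Qbar))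
    (G : MvPolynomial (Fin (n + 1)) Qbar) (F : Fin (m + 1) → MvPolynomial (Fin (n + 1)) Qbar)
    (i : Fin (m + 1)) (j : Fin (n + 1)) :
    Set (MvPolynomial (Option (Fin (n + 1))) (MvPolynomial (Fin (m + 1)) Qbar)) :=
  {p | (∃ H ∈ TZ, p = lift n m H) ∨ p = lift n m G * MvPolynomial.X none - 1 ∨
    (∃ l, p = lift n m (F i) * MvPolynomial.C (MvPolynomial.X l) -
      lift n m (F l) * MvPolynomial.C (MvPolynomial.X i)) ∨ p = MvPolynomial.X (some j) - 1}

theorem system_iff (TZ : Set (MvPolynomial (Fin (n + 1)) Qbar))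
    (G : MvPolynomial (Fin (n + 1)) Qbar) (F : Fin (m + 1) → MvPolynomial (Fin (n + 1)) Qbar)
    (i : Fin (m + 1)) (j : Fin (n + 1)) (y : Fin (m + 1) → Qbar)
    (x : Option (Fin (n + 1)) → Qbar) :
    (∀ p ∈ system n m TZ G F i j, eval₂ (eval y) x p = 0) ↔
      (∀ H ∈ TZ, eval (fun l => x (some l)) H = 0) ∧ eval (fun l => x (some l)) G * x none = 1 ∧
      (∀ l, eval (fun l => x (some l)) (F i) * y l = eval (fun l => x (some l)) (F l) * y i) ∧
      x (some j) = 1 := by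
  constructor
  · intro h
    refine ⟨fun H hH => ?_, ?_, fun l => ?_, ?_⟩
    · have := h _ (Or.inl ⟨H, hH, rfl⟩)
      rwa [eval_lift] at this
    · have := h _ (Or.inr (Or.inl rfl))
      rw [MvPolynomial.eval₂_sub, MvPolynomial.eval₂_mul, eval_lift, MvPolynomial.eval₂_X,
        MvPolynomial.eval₂_one, sub_eq_zero] at this
      exact this
    · have := h _ (Or.inr (Or.inr (Or.inl ⟨l, rfl⟩)))
      rw [MvPolynomial.eval₂_sub, MvPolynomial.eval₂_mul, MvPolynomial.eval₂_mul, eval_lift,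
        eval_lift, MvPolynomial.eval₂_C, MvPolynomial.eval₂_C, MvPolynomial.eval_X,
        MvPolynomial.eval_X, sub_eq_zero] at this
      exact this
    · have := h _ (Or.inr (Or.inr (Or.inr rfl)))
      rw [MvPolynomial.eval₂_sub, MvPolynomial.eval₂_X, MvPolynomial.eval₂_one,
        sub_eq_zero] at this
      exact this
  · rintro ⟨h1, h2, h3, h4⟩ p (⟨H, hH, rfl⟩ | rfl | ⟨l, rfl⟩ | rfl)
    · rw [eval_lift]
      exact h1 H hH
    · rw [MvPolynomial.eval₂_sub, MvPolynomial.eval₂_mul, eval_lift, MvPolynomial.eval₂_X,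
        MvPolynomial.eval₂_one, h2, sub_self]
    · rw [MvPolynomial.eval₂_sub, MvPolynomial.eval₂_mul, MvPolynomial.eval₂_mul, eval_lift,
        eval_lift, MvPolynomial.eval₂_C, MvPolynomial.eval₂_C, MvPolynomial.eval_X,
        MvPolynomial.eval_X, h3 l, sub_self]
    · rw [MvPolynomial.eval₂_sub, MvPolynomial.eval₂_X, MvPolynomial.eval₂_one, h4, sub_self]

/-- a small point in the fibre, for one chart -/
theorem chart_small (π : X → Y) {Z : Set (PSpace n)}
    {TZ : Set (MvPolynomial (Fin (n + 1)) Qbar)} (hTZ : ∀ H ∈ TZ, ∃ e : ℕ, H.IsHomogeneous e)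
    (hZ : ∀ Q : PSpace n, Q ∈ Z ↔ ∀ H ∈ TZ, eval Q.rep H = 0) (hXZ : X ⊆ Z)
    (G : MvPolynomial (Fin (n + 1)) Qbar) (hG : IsChart π Z G) (i : Fin (m + 1))
    (j : Fin (n + 1)) : ∃ c C : ℝ, 0 ≤ c ∧ 0 ≤ C ∧ ∀ x : X, eval (x : PSpace n).rep G ≠ 0 →
      (π x : PSpace m).rep i ≠ 0 → (x : PSpace n).rep j ≠ 0 →
      ∃ x' : X, π x' = π x ∧ ht (x' : PSpace n) ≤ c * ht (π x : PSpace m) + C := by
  obtain ⟨⟨d, hd⟩, e, F, hF, hch⟩ := hG
  obtain ⟨c, C, hc, hC, h⟩ := selection (system n m TZ G F i j) ⊥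
  refine ⟨(n + 1) * c, (n + 1) * C, by positivity, by positivity, fun x hxG hyi hxj => ?_⟩
  -- the scaled coordinates
  set y : Fin (m + 1) → Qbar := ((π x : PSpace m).rep i)⁻¹ • (π x : PSpace m).rep with hy
  have hyi1 : y i = 1 := by
    rw [hy, Pi.smul_apply, smul_eq_mul, inv_mul_cancel₀ hyi]
  set xa : Fin (n + 1) → Qbar := ((x : PSpace n).rep j)⁻¹ • (x : PSpace n).rep with hxa
  have hxaj : xa j = 1 := by
    rw [hxa, Pi.smul_apply, smul_eq_mul, inv_mul_cancel₀ hxj]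
  obtain ⟨hX', hF0, hπx⟩ := hch x (hXZ x.2) hxG
  -- the solution given by `x`
  have hyrep : ∃ a : Qbar, a ≠ 0 ∧ (fun l => eval (x : PSpace n).rep (F l)) = a • y := by
    have h1 : (π x : PSpace m) = Projectivization.mk Qbar _ hF0 := hπx
    obtain ⟨a, ha⟩ := Projectivization.exists_smul_eq_mk_rep Qbar _ hF0
    rw [← h1] at ha
    refine ⟨(a : Qbar)⁻¹ * (π x : PSpace m).rep i, mul_ne_zero (inv_ne_zero a.ne_zero) hyi, ?_⟩
    rw [hy, smul_smul, mul_assoc, mul_inv_cancel₀ hyi, mul_one, ← ha]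
    rw [show (a • fun i => eval (x : PSpace n).rep (F i)) =
      (a : Qbar) • fun i => eval (x : PSpace n).rep (F i) from rfl, smul_smul,
      inv_mul_cancel₀ a.ne_zero, one_smul]
  obtain ⟨a, ha0, ha⟩ := hyrep
  have hxinv : ((x : PSpace n).rep j)⁻¹ ≠ 0 := inv_ne_zero hxj
  have hGa : eval xa G ≠ 0 := by
    rw [hxa, eval_smul hd]
    exact mul_ne_zero (pow_ne_zero _ hxinv) hxG
  have hex : ∃ x' : Option (Fin (n + 1)) → Qbar, ∀ p ∈ system n m TZ G F i j,
      eval₂ (eval y) x' p = 0 := by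
    refine ⟨fun o => o.elim (eval xa G)⁻¹ xa, ?_⟩
    rw [system_iff]
    simp only [Option.elim]
    refine ⟨fun H hH => ?_, mul_inv_cancel₀ hGa, fun l => ?_, hxaj⟩
    · obtain ⟨e', he'⟩ := hTZ H hH
      rw [hxa, eval_smul he', (hZ x).1 (hXZ x.2) H hH, mul_zero]
    · rw [hxa, eval_smul (hF i), eval_smul (hF l)]
      have h1 := congrFun ha i
      have h2 := congrFun ha l
      simp only [Pi.smul_apply, smul_eq_mul] at h1 h2
      rw [h1, h2]
      ring
  obtain ⟨x', hx', hh⟩ := h y (fun r hr => by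
    rw [Ideal.mem_bot] at hr
    rw [hr, map_zero]) hex
  rw [system_iff] at hx'
  obtain ⟨h1, h2, h3, h4⟩ := hx'
  set x'' : Fin (n + 1) → Qbar := fun l => x' (some l) with hx''
  have hx0 : x'' ≠ 0 := by
    intro h0
    have := congrFun h0 j
    simp only [hx'', Pi.zero_apply] at this
    rw [h4] at this
    exact one_ne_zero this
  have hQZ : (Projectivization.mk Qbar x'' hx0 : PSpace n) ∈ Z := by
    rw [hZ]
    intro H hH
    obtain ⟨e', he'⟩ := hTZ H hH
    by_contra hne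
    exact (eval_mk he' x'' hx0).1 hne (h1 H hH)
  have hG'' : eval x'' G ≠ 0 := left_ne_zero_of_mul (by rw [h2]; exact one_ne_zero)
  obtain ⟨hQX, hQ0, hQ⟩ := hch _ hQZ ((eval_mk hd x'' hx0).2 hG'')
  refine ⟨⟨_, hQX⟩, ?_, ?_⟩
  · apply Subtype.ext
    rw [hQ]
    have h5 : (π x : PSpace m) = Projectivization.mk Qbar _ hF0 := hπx
    rw [h5, Projectivization.mk_eq_mk_iff']
    obtain ⟨b, hb⟩ := Projectivization.exists_smul_eq_mk_rep Qbar x'' hx0
    have h6 : (fun l => eval (Projectivization.mk Qbar x'' hx0 : PSpace n).rep (F l)) =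
        ((b : Qbar) ^ e * eval x'' (F i)) • y := by
      funext l
      rw [← hb, show (b • x'' : Fin (n + 1) → Qbar) = (b : Qbar) • x'' from rfl,
        eval_smul (hF l), Pi.smul_apply, smul_eq_mul, mul_assoc, h3 l, hyi1, mul_one]
    refine ⟨((b : Qbar) ^ e * eval x'' (F i)) * a⁻¹, ?_⟩
    rw [h6, ha, smul_smul, mul_assoc, inv_mul_cancel₀ ha0, mul_one]
  · rw [ht_mk]
    have h5 := absLogHeight_le_sum x''
    have h6 : absLogHeight (aff y) ≤ ht (π x : PSpace m) := by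
      have h7 : aff y = y ∘ (Fin.cons i id : Fin (m + 1 + 1) → Fin (m + 1)) := by
        funext k
        refine Fin.cases ?_ (fun l => ?_) k
        · simp [aff, hyi1]
        · simp [aff]
      have h8 := absLogHeight_comp_le (Fin.cons i id : Fin (m + 1 + 1) → Fin (m + 1)) y
      rw [← h7] at h8
      refine h8.trans ?_
      rw [hy, absLogHeight_smul _ (inv_ne_zero hyi)]
      exact le_rfl
    have h7 : ∀ l ∈ Finset.univ, absLogHeight ![1, x'' l] ≤ c * ht (π x : PSpace m) + C := by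
      intro l _
      have h8 := hh (some l)
      have h9 := mul_le_mul_of_nonneg_left h6 hc
      exact h8.trans (by linarith)
    have h8 := Finset.sum_le_card_nsmul _ _ _ h7
    rw [Finset.card_univ, Fintype.card_fin, nsmul_eq_mul] at h8
    push_cast at h8
    linarith

/-- **Heights in the fibres of a morphism.** -/
theorem main (hX : IsQuasiProjective X) (π : X → Y) (hπ : IsMorphism π) :
    ∃ c₁ c₂ c₃ c₄ : ℝ, 0 < c₁ ∧ 0 < c₂ ∧
      (∀ x : X, c₁ * ht (π x : PSpace m) - c₃ ≤ ht (x : PSpace n)) ∧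
      ∀ x : X, ∃ x' : X, π x' = π x ∧ ht (x' : PSpace n) ≤ c₂ * ht (π x : PSpace m) + c₄ := by
  obtain ⟨U, Z, hU, hZ, hXUZ⟩ := hX
  obtain ⟨TZ, hTZ, hZ'⟩ := hZ
  have hZmem : ∀ Q : PSpace n, Q ∈ Z ↔ ∀ H ∈ TZ, eval Q.rep H = 0 := by
    intro Q
    have h1 : Q ∈ Zᶜ ↔ ∃ H ∈ TZ, eval Q.rep H ≠ 0 := by
      rw [hZ']
      rfl
    rw [Set.mem_compl_iff] at h1
    constructor
    · intro hQ H hH
      by_contra hne
      exact h1.2 ⟨H, hH, hne⟩ hQ
    · intro hQ
      by_contra hne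
      obtain ⟨H, hH, h2⟩ := h1.1 hne
      exact h2 (hQ H hH)
  have hXZ : X ⊆ Z := by
    rw [hXUZ]
    exact Set.inter_subset_right
  obtain ⟨T, hT, hcov⟩ := finite_charts hπ hU hXUZ
  choose c C hc hC hsm using fun (G : T) (i : Fin (m + 1)) (j : Fin (n + 1)) =>
    chart_small π hTZ hZmem hXZ G.1 (hT G.1 G.2) i j
  have hdata : ∀ G : T, ∃ (e : ℕ) (B : ℝ), ∀ x : X, eval (x : PSpace n).rep G.1 ≠ 0 →
      ht (π x : PSpace m) ≤ B + e * ht (x : PSpace n) := by
    intro G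
    obtain ⟨-, e, F, hF, hch⟩ := hT G.1 G.2
    obtain ⟨B, hB⟩ := absLogHeight_eval e F hF
    refine ⟨e, B, fun x hx => ?_⟩
    obtain ⟨hX', hF0, hπx⟩ := hch x (hXZ x.2) hx
    have h1 : (π x : PSpace m) = Projectivization.mk Qbar _ hF0 := hπx
    rw [h1, ht_mk]
    exact hB _
  choose e B hB using hdata
  set D : ℝ := 1 + ∑ G : T, (e G : ℝ) with hD
  set E : ℝ := ∑ G : T, |B G| with hE
  have hDpos : 0 < D := by positivity
  set c₂ : ℝ := 1 + ∑ G : T, ∑ i, ∑ j, c G i j with hc₂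
  set c₄ : ℝ := ∑ G : T, ∑ i, ∑ j, C G i j with hc₄
  have hc₂pos : 0 < c₂ := by
    have : 0 ≤ ∑ G : T, ∑ i, ∑ j, c G i j := Finset.sum_nonneg fun G _ =>
      Finset.sum_nonneg fun i _ => Finset.sum_nonneg fun j _ => hc G i j
    linarith
  refine ⟨1 / D, c₂, E / D, c₄, by positivity, hc₂pos, fun x => ?_, fun x => ?_⟩
  · obtain ⟨G, hG, hGx⟩ := hcov x
    have h1 := hB ⟨G, hG⟩ x hGx
    have hhx : 0 ≤ ht (x : PSpace n) := absLogHeight_nonneg _
    have h2 : (e ⟨G, hG⟩ : ℝ) ≤ ∑ G : T, (e G : ℝ) :=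
      Finset.single_le_sum (f := fun G : T => (e G : ℝ)) (fun G _ => by positivity)
        (Finset.mem_univ (⟨G, hG⟩ : T))
    have h3 : |B ⟨G, hG⟩| ≤ E :=
      Finset.single_le_sum (f := fun G : T => |B G|) (fun G _ => abs_nonneg _)
        (Finset.mem_univ (⟨G, hG⟩ : T))
    have h4 := le_abs_self (B ⟨G, hG⟩)
    have h5 : ht (π x : PSpace m) ≤ E + D * ht (x : PSpace n) := by
      have := mul_le_mul_of_nonneg_right h2 hhx
      rw [hD]
      nlinarith
    have h6 : 1 / D * ht (π x : PSpace m) - E / D = (ht (π x : PSpace m) - E) / D := by ring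
    rw [h6, div_le_iff₀ hDpos]
    linarith
  · obtain ⟨G, hG, hGx⟩ := hcov x
    obtain ⟨i, hi⟩ : ∃ i, (π x : PSpace m).rep i ≠ 0 := by
      by_contra hcon
      push Not at hcon
      exact (π x : PSpace m).rep_nonzero (funext hcon)
    obtain ⟨j, hj⟩ : ∃ j, (x : PSpace n).rep j ≠ 0 := by
      by_contra hcon
      push Not at hcon
      exact (x : PSpace n).rep_nonzero (funext hcon)
    obtain ⟨x', hx', hh⟩ := hsm ⟨G, hG⟩ i j x hGx hi hj
    refine ⟨x', hx', hh.trans ?_⟩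
    have hhy : 0 ≤ ht (π x : PSpace m) := absLogHeight_nonneg _
    have key : ∀ f : T → Fin (m + 1) → Fin (n + 1) → ℝ, (∀ G i j, 0 ≤ f G i j) →
        f ⟨G, hG⟩ i j ≤ ∑ G : T, ∑ i, ∑ j, f G i j := by
      intro f hf
      refine (Finset.single_le_sum (f := fun j => f ⟨G, hG⟩ i j) (fun j _ => hf _ _ _)
        (Finset.mem_univ j)).trans ?_
      refine (Finset.single_le_sum (f := fun i => ∑ j, f ⟨G, hG⟩ i j) (fun i _ =>
        Finset.sum_nonneg fun j _ => hf _ _ _) (Finset.mem_univ i)).trans ?_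
      exact Finset.single_le_sum (f := fun G : T => ∑ i, ∑ j, f G i j) (fun G _ =>
        Finset.sum_nonneg fun i _ => Finset.sum_nonneg fun j _ => hf _ _ _)
        (Finset.mem_univ (⟨G, hG⟩ : T))
    have h1 := key c hc
    have h2 := key C hC
    have h3 := mul_le_mul_of_nonneg_right h1 hhy
    rw [hc₂, hc₄]
    nlinarith

end Pool.Agent.U770.MH
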