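import Pool.Agent.U770.MH.Main

/-!
# Ample heights and quotients
-/

set_option autoImplicit false

namespace Pool.Agent.U770.MH

open Pool.Agent.Helper259.AbsHt Pool.Agent.Helper259.RatDef Pool.Agent.Helper259.RatMaps
open MvPolynomial (eval eval₂)

/-- An ample height on a quasi-projective variety `X`: up to a bounded function it is a positive
multiple of the pullback of the standard absolute logarithmic height under an embedding of `X`
(an isomorphism with a quasi-projective variety in some projective space). -/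
def IsAmpleHeight {n : ℕ} {X : Set (PSpace n)} (h : X → ℝ) : Prop :=
  ∃ (N : ℕ) (X' : Set (PSpace N)) (i : X ≃ X'), IsQuasiProjective X' ∧ IsMorphism i ∧
    IsMorphism i.symm ∧ ∃ a B : ℝ, 0 < a ∧ ∀ x : X, |h x - a * ht (i x : PSpace N)| ≤ B

/-- `A ≍ B`: each of the two functions is bounded by a positive multiple of the other one plus a
constant. -/
def Comparable {S : Type*} (A B : S → ℝ) : Prop :=
  ∃ c₁ c₂ c₃ c₄ : ℝ, 0 < c₁ ∧ 0 < c₂ ∧ ∀ s, c₁ * A s - c₃ ≤ B s ∧ B s ≤ c₂ * A s + c₄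

theorem IsMorphism.comp {n m k : ℕ} {X : Set (PSpace n)} {Y : Set (PSpace m)}
    {W : Set (PSpace k)} {π : X → Y} {ρ : Y → W} (hρ : IsMorphism ρ) (hπ : IsMorphism π) :
    IsMorphism (ρ ∘ π) := by
  rw [isMorphism_iff] at *
  intro P
  obtain ⟨U, ⟨TU, hTU, rfl⟩, ⟨G, hG, hGP⟩, e, F, hF, hU⟩ := hπ P
  obtain ⟨V, ⟨TV, hTV, rfl⟩, ⟨H, hH, hHP⟩, e', F', hF', hV⟩ := hρ (π P)
  obtain ⟨g, hg⟩ := hTU G hG
  obtain ⟨h, hh⟩ := hTV H hH
  have hcomp : ∀ (K : MvPolynomial (Fin (m + 1)) Qbar) (Q : PSpace n),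
      eval Q.rep (MvPolynomial.bind₁ F K) = eval (fun i => eval Q.rep (F i)) K := by
    intro K Q
    rw [MvPolynomial.bind₁, MvPolynomial.aeval_def, MvPolynomial.algebraMap_eq,
      ← MvPolynomial.coe_eval₂Hom, ← RingHom.comp_apply, MvPolynomial.comp_eval₂Hom]
    simp only [MvPolynomial.eval₂Hom_eq_bind₂, MvPolynomial.coe_eval₂Hom]
    have : ((eval Q.rep).comp MvPolynomial.C : Qbar →+* Qbar) = RingHom.id Qbar := by
      ext r
      simp
    rw [this]
    rfl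
  have hbind : ∀ (K : MvPolynomial (Fin (m + 1)) Qbar) (j : ℕ), K.IsHomogeneous j →
      (MvPolynomial.bind₁ F K).IsHomogeneous (e * j) := by
    intro K j hK
    exact hK.aeval F hF
  have hev : ∀ (K : MvPolynomial (Fin (m + 1)) Qbar) (j : ℕ), K.IsHomogeneous j → ∀ Q : X,
      (Q : PSpace n) ∈ {P : PSpace n | ∃ F ∈ TU, eval P.rep F ≠ 0} →
      ∃ b : Qbar, b ≠ 0 ∧ ∀ (K : MvPolynomial (Fin (m + 1)) Qbar) (j : ℕ), K.IsHomogeneous j →
        eval (π Q : PSpace m).rep K = b ^ j * eval (fun i => eval (Q : PSpace n).rep (F i)) K := by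
    intro K j hK Q hQ
    obtain ⟨h0, h1⟩ := hU Q hQ
    obtain ⟨b, hb⟩ := Projectivization.exists_smul_eq_mk_rep Qbar _ h0
    refine ⟨b, b.ne_zero, fun K j hK => ?_⟩
    rw [h1, ← hb, show (b • fun i => eval (Q : PSpace n).rep (F i)) =
      (b : Qbar) • fun i => eval (Q : PSpace n).rep (F i) from rfl, eval_smul hK]
  refine ⟨{Q : PSpace n | ∃ K ∈ ({G * MvPolynomial.bind₁ F H} :
      Set (MvPolynomial (Fin (n + 1)) Qbar)), eval Q.rep K ≠ 0},
    ⟨{G * MvPolynomial.bind₁ F H}, ?_, rfl⟩, ⟨G * MvPolynomial.bind₁ F H, rfl, ?_⟩, e * e',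
    fun i => MvPolynomial.bind₁ F (F' i), fun i => hbind _ _ (hF' i), ?_⟩
  · rintro K rfl
    exact ⟨g + e * h, hg.mul (hbind H h hh)⟩
  · rw [map_mul, hcomp]
    refine mul_ne_zero hGP ?_
    obtain ⟨b, hb, hb'⟩ := hev H h hh P ⟨G, hG, hGP⟩
    rw [hb' H h hh] at hHP
    exact right_ne_zero_of_mul hHP
  · rintro Q ⟨K, rfl, hK⟩
    rw [map_mul, hcomp] at hK
    have hQU : (Q : PSpace n) ∈ {P : PSpace n | ∃ F ∈ TU, eval P.rep F ≠ 0} :=
      ⟨G, hG, left_ne_zero_of_mul hK⟩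
    obtain ⟨b, hb, hb'⟩ := hev H h hh Q hQU
    have hQV : (π Q : PSpace m) ∈ {P : PSpace m | ∃ F ∈ TV, eval P.rep F ≠ 0} := by
      refine ⟨H, hH, ?_⟩
      rw [hb' H h hh]
      exact mul_ne_zero (pow_ne_zero _ hb) (right_ne_zero_of_mul hK)
    obtain ⟨h0, h1⟩ := hV (π Q) hQV
    have h2 : (fun i => eval (π Q : PSpace m).rep (F' i)) =
        b ^ e' • fun i => eval (Q : PSpace n).rep (MvPolynomial.bind₁ F (F' i)) := by
      funext i
      rw [hb' _ _ (hF' i), Pi.smul_apply, hcomp, smul_eq_mul]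
    have h3 : (fun i => eval (Q : PSpace n).rep (MvPolynomial.bind₁ F (F' i))) ≠ 0 := by
      intro h4
      rw [h4, smul_zero] at h2
      exact h0 h2
    refine ⟨h3, ?_⟩
    show (ρ (π Q) : PSpace k) = _
    rw [h1, Projectivization.mk_eq_mk_iff']
    exact ⟨b ^ e', h2.symm⟩

/-- **Comparison of the height on the target with the least height in the fibres**, for all ample
heights. -/
theorem fibre {n m : ℕ} {X : Set (PSpace n)} {Y : Set (PSpace m)} (π : X → Y)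
    (hπ : IsMorphism π) (hX : X → ℝ) (hY : Y → ℝ) (hhX : IsAmpleHeight hX)
    (hhY : IsAmpleHeight hY) :
    ∃ c₁ c₂ c₃ c₄ : ℝ, 0 < c₁ ∧ 0 < c₂ ∧ (∀ x : X, c₁ * hY (π x) - c₃ ≤ hX x) ∧
      ∀ x : X, ∃ x' : X, π x' = π x ∧ hX x' ≤ c₂ * hY (π x) + c₄ := by
  obtain ⟨N, X', i, hX', hi, hi', a, A, ha, hA⟩ := hhX
  obtain ⟨M, Y', j, hY', hj, hj', b, B, hb, hB⟩ := hhY
  obtain ⟨c₁, c₂, c₃, c₄, hc₁, hc₂, h1, h2⟩ := main hX' (j ∘ (π ∘ i.symm))
    (hj.comp (hπ.comp hi'))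
  have hX1 : ∀ x, a * ht (i x : PSpace N) - A ≤ hX x := fun x => by
    linarith [(abs_le.1 (hA x)).1]
  have hX2 : ∀ x, hX x ≤ a * ht (i x : PSpace N) + A := fun x => by
    linarith [(abs_le.1 (hA x)).2]
  have hY1 : ∀ y, b * ht (j y : PSpace M) - B ≤ hY y := fun y => by
    linarith [(abs_le.1 (hB y)).1]
  have hY2 : ∀ y, hY y ≤ b * ht (j y : PSpace M) + B := fun y => by
    linarith [(abs_le.1 (hB y)).2]
  refine ⟨a * c₁ / b, a * c₂ / b, a * c₃ + A + a * c₁ * B / b, a * c₄ + A + a * c₂ * B / b,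
    by positivity, by positivity, fun x => ?_, fun x => ?_⟩
  · have h3 := h1 (i x)
    simp only [Function.comp_apply, Equiv.symm_apply_apply] at h3
    have h4 := hY2 (π x)
    have h5 := hX1 x
    have h6 : a * c₁ / b * hY (π x) ≤ a * c₁ / b * (b * ht (j (π x) : PSpace M) + B) :=
      mul_le_mul_of_nonneg_left h4 (by positivity)
    have h7 : a * c₁ / b * (b * ht (j (π x) : PSpace M) + B) =
        a * (c₁ * ht (j (π x) : PSpace M)) + a * c₁ * B / b := by
      field_simp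
    have h8 := mul_le_mul_of_nonneg_left h3 ha.le
    nlinarith
  · obtain ⟨x', hx', h3⟩ := h2 (i x)
    simp only [Function.comp_apply, Equiv.symm_apply_apply] at hx' h3
    refine ⟨i.symm x', j.injective hx', ?_⟩
    have h4 := hX2 (i.symm x')
    rw [Equiv.apply_symm_apply] at h4
    have h5 := hY1 (π x)
    have h6 : a * c₂ / b * (b * ht (j (π x) : PSpace M) - B) ≤ a * c₂ / b * hY (π x) :=
      mul_le_mul_of_nonneg_left h5 (by positivity)
    have h7 : a * c₂ / b * (b * ht (j (π x) : PSpace M) - B) =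
        a * (c₂ * ht (j (π x) : PSpace M)) - a * c₂ * B / b := by
      field_simp
    have h8 := mul_le_mul_of_nonneg_left h3 ha.le
    nlinarith

/-- The version for infima over the classes of an equivalence relation given by the fibres. -/
theorem fibre_inf {n m : ℕ} {X : Set (PSpace n)} {Y : Set (PSpace m)} (π : X → Y)
    (hπ : IsMorphism π) (hX : X → ℝ) (hY : Y → ℝ) (hhX : IsAmpleHeight hX)
    (hhY : IsAmpleHeight hY) {ι : X → Type*} (f : ∀ x, ι x → X)
    (hf : ∀ x x' : X, π x = π x' ↔ ∃ g : ι x, f x g = x') :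
    Comparable (fun x => hY (π x)) (fun x => ⨅ g : ι x, hX (f x g)) := by
  obtain ⟨c₁, c₂, c₃, c₄, hc₁, hc₂, h1, h2⟩ := fibre π hπ hX hY hhX hhY
  have hlow : ∀ (x : X) (g : ι x), c₁ * hY (π x) - c₃ ≤ hX (f x g) := by
    intro x g
    have h3 : π x = π (f x g) := (hf x _).2 ⟨g, rfl⟩
    rw [h3]
    exact h1 _
  refine ⟨c₁, c₂, c₃, c₄, hc₁, hc₂, fun x => ⟨?_, ?_⟩⟩
  · have : Nonempty (ι x) := by
      obtain ⟨g, -⟩ := (hf x x).1 rfl
      exact ⟨g⟩
    exact le_ciInf (hlow x)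
  · obtain ⟨x', hx', h3⟩ := h2 x
    obtain ⟨g, rfl⟩ := (hf x x').1 hx'.symm
    refine (ciInf_le ?_ g).trans h3
    exact ⟨_, by rintro _ ⟨g, rfl⟩; exact hlow x g⟩

end Pool.Agent.U770.MH
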