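import Pool.Agent.U770.MH.Quot
import Pool.Agent.TH450.PC.E1

/-!
# The space of rational maps of degree `d` of the projective line
-/

set_option autoImplicit false

namespace Pool.Agent.U770.MH

open Pool.Agent.Helper259.AbsHt Pool.Agent.Helper259.RatDef Pool.Agent.Helper259.RatMaps
open MvPolynomial (eval eval₂)

/-- The pair of binary forms `(∑ a_i x ^ i y ^ (d - i), ∑ b_i x ^ i y ^ (d - i))` of degree `d` with the
coefficient vector `c = (a_0, …, a_d, b_0, …, b_d)`, evaluated at `v = (x, y)`. -/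
noncomputable def forms {d : ℕ} (c : Fin (2 * d + 1 + 1) → Qbar) (v : Fin 2 → Qbar) :
    Fin 2 → Qbar :=
  ![∑ i : Fin (d + 1), c ⟨i, by omega⟩ * v 0 ^ (i : ℕ) * v 1 ^ (d - (i : ℕ)),
    ∑ i : Fin (d + 1), c ⟨d + 1 + i, by omega⟩ * v 0 ^ (i : ℕ) * v 1 ^ (d - (i : ℕ))]

/-- The space `Rat_d ⊂ ℙ ^ (2 d + 1)` of rational maps of degree `d` of the projective line: the
coefficient vectors of the pairs of forms of degree `d` without common zero. -/
def Rat (d : ℕ) : Set (PSpace (2 * d + 1)) :=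
  {P | ∀ v : Fin 2 → Qbar, forms P.rep v = 0 → v = 0}

/-- The self-map of the projective line given by a point of `Rat_d`. -/
noncomputable def toMap {d : ℕ} (f : Rat d) (P : PSpace 1) : PSpace 1 :=
  Projectivization.mk Qbar (forms f.1.rep P.rep) fun h => P.rep_nonzero (f.2 _ h)

/-- The linear automorphisms of `Qbar ^ 2`; the group `PGL_2` is its quotient by the scalars. -/
abbrev GL2 : Type := (Fin 2 → Qbar) ≃ₗ[Qbar] (Fin 2 → Qbar)

/-- The action of a linear automorphism on the projective line. -/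
noncomputable def act (φ : GL2) (P : PSpace 1) : PSpace 1 :=
  Projectivization.mk Qbar (φ P.rep) fun h => P.rep_nonzero (φ.map_eq_zero_iff.1 h)

/-- `f' = φ⁻¹ ∘ f ∘ φ` -/
def IsConjBy {d : ℕ} (φ : GL2) (f f' : Rat d) : Prop :=
  ∀ P : PSpace 1, toMap f' P = act φ.symm (toMap f (act φ P))

theorem forms_zero {d : ℕ} (c : Fin (2 * d + 1 + 1) → Qbar) (v : Fin 2 → Qbar) :
    forms c v 0 = ∑ i : Fin (d + 1), c ⟨i, by omega⟩ * v 0 ^ (i : ℕ) * v 1 ^ (d - (i : ℕ)) := rfl

theorem forms_one {d : ℕ} (c : Fin (2 * d + 1 + 1) → Qbar) (v : Fin 2 → Qbar) :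
    forms c v 1 = ∑ i : Fin (d + 1), c ⟨d + 1 + i, by omega⟩ * v 0 ^ (i : ℕ) *
      v 1 ^ (d - (i : ℕ)) := rfl

theorem forms_smul {d : ℕ} (c : Fin (2 * d + 1 + 1) → Qbar) (a : Qbar) (v : Fin 2 → Qbar) :
    forms c (a • v) = a ^ d • forms c v := by
  have key : ∀ (i : Fin (d + 1)), a ^ d = a ^ (i : ℕ) * a ^ (d - (i : ℕ)) := by
    intro i
    rw [← pow_add]
    congr 1
    omega
  funext j
  fin_cases j
  · show forms c (a • v) 0 = a ^ d * forms c v 0
    rw [forms_zero, forms_zero, Finset.mul_sum]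
    refine Finset.sum_congr rfl fun i _ => ?_
    rw [key i, Pi.smul_apply, Pi.smul_apply, smul_eq_mul, smul_eq_mul]
    ring
  · show forms c (a • v) 1 = a ^ d * forms c v 1
    rw [forms_one, forms_one, Finset.mul_sum]
    refine Finset.sum_congr rfl fun i _ => ?_
    rw [key i, Pi.smul_apply, Pi.smul_apply, smul_eq_mul, smul_eq_mul]
    ring

theorem forms_smul_left {d : ℕ} (c : Fin (2 * d + 1 + 1) → Qbar) (a : Qbar) (v : Fin 2 → Qbar) :
    forms (a • c) v = a • forms c v := by
  funext j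
  fin_cases j
  · show forms (a • c) v 0 = a * forms c v 0
    rw [forms_zero, forms_zero, Finset.mul_sum]
    refine Finset.sum_congr rfl fun i _ => ?_
    rw [Pi.smul_apply, smul_eq_mul]
    ring
  · show forms (a • c) v 1 = a * forms c v 1
    rw [forms_one, forms_one, Finset.mul_sum]
    refine Finset.sum_congr rfl fun i _ => ?_
    rw [Pi.smul_apply, smul_eq_mul]
    ring

/-! ### the resultant -/

section res

open Polynomial

theorem det_homog {σ R : Type*} [CommRing R] {N : ℕ} (M : Matrix (Fin N) (Fin N) (MvPolynomial σ R))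
    (h : ∀ i j, (M i j).IsHomogeneous 1) : M.det.IsHomogeneous N := by
  rw [Matrix.det_apply]
  refine MvPolynomial.IsHomogeneous.sum _ _ _ fun s _ => ?_
  have h1 : (∏ i, M (s i) i).IsHomogeneous (∑ i : Fin N, 1) :=
    MvPolynomial.IsHomogeneous.prod _ _ _ fun i _ => h _ _
  rw [Finset.sum_const, Finset.card_univ, Fintype.card_fin, smul_eq_mul, mul_one] at h1
  rcases Int.units_eq_one_or (Equiv.Perm.sign s) with h2 | h2
  · rw [h2, one_smul]
    exact h1
  · rw [h2, Units.neg_smul, one_smul]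
    exact h1.neg

/-- the universal dehomogenized forms -/
noncomputable def uf (d : ℕ) (j : Fin 2) : (MvPolynomial (Fin (2 * d + 1 + 1)) Qbar)[X] :=
  ∑ i : Fin (d + 1), C (MvPolynomial.X ⟨(j : ℕ) * (d + 1) + i, by
    have := j.2
    have := i.2
    have h : (j : ℕ) ≤ 1 := by omega
    nlinarith⟩) * X ^ (i : ℕ)

theorem uf_coeff (d : ℕ) (j : Fin 2) (k : ℕ) : ((uf d j).coeff k).IsHomogeneous 1 := by
  rw [uf, finsetSum_coeff]
  refine MvPolynomial.IsHomogeneous.sum _ _ _ fun i _ => ?_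
  rw [coeff_C_mul_X_pow]
  split_ifs
  · exact MvPolynomial.isHomogeneous_X _ _
  · exact MvPolynomial.isHomogeneous_zero _ _ _

/-- the universal resultant -/
noncomputable def ures (d : ℕ) : MvPolynomial (Fin (2 * d + 1 + 1)) Qbar :=
  resultant (uf d 0) (uf d 1) d d

theorem ures_homog (d : ℕ) : (ures d).IsHomogeneous (d + d) := by
  rw [ures, resultant]
  refine det_homog _ fun i j => ?_
  rw [sylvester, Matrix.of_apply]
  refine Fin.addCases (fun j₁ => ?_) (fun j₁ => ?_) j
  · rw [Fin.addCases_left]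
    split_ifs
    · exact uf_coeff _ _ _
    · exact MvPolynomial.isHomogeneous_zero _ _ _
  · rw [Fin.addCases_right]
    split_ifs
    · exact uf_coeff _ _ _
    · exact MvPolynomial.isHomogeneous_zero _ _ _

/-- the forms as polynomials -/
noncomputable def mforms {d : ℕ} (c : Fin (2 * d + 1 + 1) → Qbar) (j : Fin 2) :
    MvPolynomial (Fin 2) Qbar :=
  ∑ i : Fin (d + 1), MvPolynomial.C (c ⟨(j : ℕ) * (d + 1) + i, by
    have := j.2
    have := i.2
    have h : (j : ℕ) ≤ 1 := by omega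
    nlinarith⟩) * MvPolynomial.X 0 ^ (i : ℕ) * MvPolynomial.X 1 ^ (d - (i : ℕ))

theorem mforms_homog {d : ℕ} (c : Fin (2 * d + 1 + 1) → Qbar) (j : Fin 2) :
    (mforms c j).IsHomogeneous d := by
  unfold mforms
  refine MvPolynomial.IsHomogeneous.sum _ _ _ fun i _ => ?_
  have h1 := ((MvPolynomial.isHomogeneous_C (Fin 2) (c ⟨(j : ℕ) * (d + 1) + i, by
    have := j.2
    have := i.2
    have h : (j : ℕ) ≤ 1 := by omega
    nlinarith⟩)).mul
    (MvPolynomial.isHomogeneous_X_pow (R := Qbar) (0 : Fin 2) (i : ℕ))).mul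
    (MvPolynomial.isHomogeneous_X_pow (R := Qbar) (1 : Fin 2) (d - (i : ℕ)))
  have h2 : 0 + (i : ℕ) + (d - (i : ℕ)) = d := by
    have := i.2
    omega
  rwa [h2] at h1

theorem eval_mforms {d : ℕ} (c : Fin (2 * d + 1 + 1) → Qbar) (v : Fin 2 → Qbar) :
    (fun j => eval v (mforms c j)) = forms c v := by
  funext j
  fin_cases j
  · simp [mforms, forms]
  · simp [mforms, forms]

open Pool.Agent.H951R3.PB Pool.Agent.TH450.PC in
theorem eval_ures {d : ℕ} (hd : 1 ≤ d) (c : Fin (2 * d + 1 + 1) → Qbar) :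
    eval c (ures d) ≠ 0 ↔ ∀ v, forms c v = 0 → v = 0 := by
  have h1 : eval c (ures d) = rs (mforms c) d := by
    rw [ures, ← resultant_map_map, rs]
    congr 1
    · simp only [uf, dh, mforms, Polynomial.map_sum, map_sum]
      refine Finset.sum_congr rfl fun i _ => ?_
      simp
    · simp only [uf, dh, mforms, Polynomial.map_sum, map_sum]
      refine Finset.sum_congr rfl fun i _ => ?_
      simp
  rw [h1, rs_ne_zero_iff hd (mforms_homog c)]
  have h2 : ∀ v, ev (mforms c) v = forms c v := fun v => eval_mforms c v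
  simp only [h2]

end res

theorem Rat_quasiProjective {d : ℕ} (hd : 1 ≤ d) : IsQuasiProjective (Rat d) := by
  refine ⟨Rat d, Set.univ, ⟨{ures d}, ?_, ?_⟩, ⟨∅, by simp, by simp⟩, by simp⟩
  · rintro F rfl
    exact ⟨_, ures_homog d⟩
  · ext P
    simp only [Rat, Set.mem_ofPred_eq, Set.mem_singleton_iff, exists_eq_left]
    exact (eval_ures hd _).symm

end Pool.Agent.U770.MH
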