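import Mathlib
import Pool.Agent.Helper259.RatMaps

/-!
# Points of small height in the fibres of a morphism

`selection`: let `S` be an algebraic subset of `𝔸^σ × 𝔸^m` over the algebraic numbers. There are
constants `c`, `C` such that for all `y` in the image of `S` under the projection to `𝔸^m` there is a
point `x` with `(x, y) ∈ S` and `h (x_i) ≤ c h (y) + C` for all `i`.

Proof by Noetherian induction on the closed subsets of `𝔸^m`: over the generic point of an
irreducible closed subset there is a solution in a finite extension of its function field, its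
coordinates are integral over the coordinate ring after inverting one element, and it specializes.
-/

set_option autoImplicit false

namespace Pool.Agent.U770.MH

open Pool.Agent.Helper259.AbsHt Pool.Agent.Helper259.RatMaps Pool.Agent.Helper259.HtPoly

/-- homomorphisms to algebraically closed fields extend to integral closures -/
theorem ext_hom {A L Ω : Type*} [CommRing A] [Field L] [Field Ω] [IsAlgClosed Ω] [Algebra A L]
    (φ : A →+* Ω) (hφ : ∀ a, algebraMap A L a = 0 → φ a = 0) :
    ∃ χ : integralClosure A L →+* Ω, ∀ a, χ (algebraMap A (integralClosure A L) a) = φ a := by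
  have hP : (RingHom.ker φ).IsPrime := RingHom.ker_isPrime φ
  have hle : (⊥ : Ideal (integralClosure A L)).comap (algebraMap A (integralClosure A L)) ≤
      RingHom.ker φ := by
    intro a ha
    rw [Ideal.mem_comap, Ideal.mem_bot] at ha
    rw [RingHom.mem_ker]
    apply hφ
    have := congrArg (algebraMap (integralClosure A L) L) ha
    rwa [map_zero, ← IsScalarTower.algebraMap_apply] at this
  obtain ⟨Q, -, hQ, hQP⟩ := Ideal.exists_ideal_over_prime_of_isIntegral (RingHom.ker φ)
    (⊥ : Ideal (integralClosure A L)) hle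
  have hover : Q.LiesOver (RingHom.ker φ) := ⟨hQP.symm⟩
  let _ : Algebra (A ⧸ RingHom.ker φ) Ω := (RingHom.kerLift φ).toAlgebra
  have hinj : Function.Injective (algebraMap (A ⧸ RingHom.ker φ) Ω) := RingHom.kerLift_injective φ
  have : FaithfulSMul (A ⧸ RingHom.ker φ) Ω := (faithfulSMul_iff_algebraMap_injective _ _).2 hinj
  have : Algebra.IsIntegral (A ⧸ RingHom.ker φ) (integralClosure A L ⧸ Q) := inferInstance
  have : Algebra.IsAlgebraic (A ⧸ RingHom.ker φ) (integralClosure A L ⧸ Q) := inferInstance
  let ψ : (integralClosure A L ⧸ Q) →ₐ[A ⧸ RingHom.ker φ] Ω := IsAlgClosed.lift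
  refine ⟨(ψ : (integralClosure A L ⧸ Q) →+* Ω).comp (Ideal.Quotient.mk Q), fun a => ?_⟩
  have h1 : Ideal.Quotient.mk Q (algebraMap A (integralClosure A L) a) =
      algebraMap (A ⧸ RingHom.ker φ) (integralClosure A L ⧸ Q) (Ideal.Quotient.mk _ a) := rfl
  rw [RingHom.comp_apply, h1]
  show ψ _ = _
  rw [AlgHom.commutes]
  rfl

/-- Specialization: a common zero `x`, in a field `L`, of polynomials over `R`, whose coordinates are
roots of polynomials with leading coefficients dividing `a`, specializes along every homomorphism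
`φ` from `R` to an algebraically closed field with `φ a ≠ 0` which factors over the image of `R`
in `L`. -/
theorem spec {R L Ω σ : Type*} [CommRing R] [Field L] [Field Ω] [IsAlgClosed Ω] (θ : R →+* L)
    (x : σ → L) (p : σ → Polynomial R) (hp : ∀ i, (p i).eval₂ θ (x i) = 0) (a : R)
    (ha : ∀ i, (p i).leadingCoeff ∣ a) (ha0 : θ a ≠ 0) (φ : R →+* Ω)
    (hφ : ∀ r, θ r = 0 → φ r = 0) (hφa : φ a ≠ 0) :
    ∃ x' : σ → Ω, ∀ q : MvPolynomial σ R, MvPolynomial.eval₂ θ x q = 0 →
      MvPolynomial.eval₂ φ x' q = 0 := by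
  let Ra := Localization.Away a
  let θa : Ra →+* L := IsLocalization.Away.lift (S := Ra) a (g := θ) (IsUnit.mk0 _ ha0)
  let φa : Ra →+* Ω := IsLocalization.Away.lift (S := Ra) a (g := φ) (IsUnit.mk0 _ hφa)
  have hθa : ∀ r, θa (algebraMap R Ra r) = θ r := fun r => IsLocalization.Away.lift_eq a _ r
  have hφa' : ∀ r, φa (algebraMap R Ra r) = φ r := fun r => IsLocalization.Away.lift_eq a _ r
  let _ : Algebra R L := θ.toAlgebra
  let _ : Algebra Ra L := θa.toAlgebra
  have hst : IsScalarTower R Ra L := IsScalarTower.of_algebraMap_eq fun r => (hθa r).symm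
  have h1 : ∀ z : Ra, algebraMap Ra L z = 0 → φa z = 0 := by
    intro z hz
    obtain ⟨r, s, rfl⟩ := IsLocalization.exists_mk'_eq (Submonoid.powers a) z
    have h2 : θ r = 0 := by
      have h3 := congrArg (algebraMap Ra L) (IsLocalization.mk'_spec' Ra r s)
      rw [map_mul, hz, mul_zero] at h3
      rw [← hθa]
      exact h3.symm
    have h4 := congrArg φa (IsLocalization.mk'_spec' Ra r s)
    rw [map_mul, hφa', hφa', hφ r h2] at h4
    refine (mul_eq_zero.1 h4).resolve_left ?_
    obtain ⟨k, hk⟩ := s.2
    rw [← hk, map_pow]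
    exact pow_ne_zero _ hφa
  obtain ⟨χ, hχ⟩ := ext_hom (L := L) φa h1
  have hint : ∀ i, IsIntegral Ra (x i) := by
    intro i
    have h2 : IsIntegral R ((p i).leadingCoeff • x i) :=
      isIntegral_leadingCoeff_smul (p i) (x i) (by rw [Polynomial.aeval_def]; exact hp i)
    have h3 : IsIntegral Ra ((p i).leadingCoeff • x i) := h2.tower_top
    have h4 : IsUnit (algebraMap R Ra (p i).leadingCoeff) :=
      isUnit_of_dvd_unit (map_dvd (algebraMap R Ra) (ha i))
        (IsLocalization.Away.algebraMap_isUnit a)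
    obtain ⟨u, hu⟩ := h4
    have h5 : x i = (((u⁻¹ : Raˣ) : Ra)) • ((p i).leadingCoeff • x i) := by
      rw [← algebraMap_smul Ra (p i).leadingCoeff (x i), ← hu, smul_smul, Units.inv_mul, one_smul]
    rw [h5]
    exact h3.smul _
  refine ⟨fun i => χ ⟨x i, hint i⟩, fun q hq => ?_⟩
  let Θ : MvPolynomial σ R →+* integralClosure Ra L := MvPolynomial.eval₂Hom
    ((algebraMap Ra (integralClosure Ra L)).comp (algebraMap R Ra)) (fun i => ⟨x i, hint i⟩)
  have h2 : (algebraMap (integralClosure Ra L) L).comp Θ = MvPolynomial.eval₂Hom θ x := by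
    apply MvPolynomial.ringHom_ext
    · intro r
      simp only [Θ, RingHom.comp_apply, MvPolynomial.eval₂Hom_C]
      rw [← IsScalarTower.algebraMap_apply]
      exact hθa r
    · intro i
      simp only [Θ, RingHom.comp_apply, MvPolynomial.eval₂Hom_X']
      rfl
  have h3 : χ.comp Θ = MvPolynomial.eval₂Hom φ (fun i => χ ⟨x i, hint i⟩) := by
    apply MvPolynomial.ringHom_ext
    · intro r
      simp only [Θ, RingHom.comp_apply, MvPolynomial.eval₂Hom_C]
      rw [hχ]
      exact hφa' r
    · intro i
      simp only [Θ, RingHom.comp_apply, MvPolynomial.eval₂Hom_X']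
  have h4 : Θ q = 0 := by
    have h5 := congrArg (fun f : MvPolynomial σ R →+* L => f q) h2
    simp only [RingHom.comp_apply, MvPolynomial.coe_eval₂Hom] at h5
    rw [hq] at h5
    have h6 : Function.Injective (algebraMap (integralClosure Ra L) L) := Subtype.val_injective
    exact h6 (by rw [h5, map_zero])
  have h5 := congrArg (fun f : MvPolynomial σ R →+* Ω => f q) h3
  simp only [RingHom.comp_apply, MvPolynomial.coe_eval₂Hom] at h5
  rw [← h5, h4, map_zero]

/-- values of polynomials have bounded height -/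
theorem poly_bound {m : ℕ} {ι : Type*} [Finite ι] (q : ι → MvPolynomial (Fin m) Qbar) :
    ∃ (D : ℕ) (C : ℝ), ∀ y : Fin m → Qbar,
      absLogHeight (fun k => MvPolynomial.eval y (q k)) ≤ C + D * absLogHeight (aff y) := by
  cases nonempty_fintype ι
  set D := Finset.univ.sup fun i => (q i).totalDegree with hD
  have hDq : ∀ i, (q i).totalDegree ≤ D := fun i =>
    Finset.le_sup (f := fun i => (q i).totalDegree) (Finset.mem_univ i)
  obtain ⟨C, hC⟩ := absLogHeight_eval D (fun i => hom D (q i)) (fun i => hom_homog (hDq i))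
  refine ⟨D, C, fun y => ?_⟩
  have := hC (aff y)
  simpa only [eval_hom] using this

/-- generic solutions: if the ideal `J` of polynomials over the domain `A` contains no nonzero
constant, it has a zero with coordinates algebraic over the fraction field of `A` -/
theorem generic {A σ : Type} [CommRing A] [IsDomain A] [Finite σ] (J : Ideal (MvPolynomial σ A))
    (hJ : ∀ s : A, MvPolynomial.C s ∈ J → s = 0) :
    ∃ (L : Type) (_ : Field L) (θ : A →+* L) (x : σ → L), Function.Injective θ ∧
      (∀ q ∈ J, MvPolynomial.eval₂ θ x q = 0) ∧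
      ∀ i, ∃ p : Polynomial A, p ≠ 0 ∧ p.eval₂ θ (x i) = 0 := by
  let K := FractionRing A
  let _ : Algebra (MvPolynomial σ A) (MvPolynomial σ K) := MvPolynomial.algebraMvPolynomial
  have hloc : IsLocalization ((nonZeroDivisors A).map (MvPolynomial.C (σ := σ)))
    (MvPolynomial σ K) := MvPolynomial.isLocalization _ K
  have hne : Ideal.map (algebraMap (MvPolynomial σ A) (MvPolynomial σ K)) J ≠ ⊤ := by
    intro htop
    have h1 : (1 : MvPolynomial σ K) ∈ Ideal.map (algebraMap (MvPolynomial σ A)
      (MvPolynomial σ K)) J := by rw [htop]; trivial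
    rw [IsLocalization.mem_map_algebraMap_iff ((nonZeroDivisors A).map
      (MvPolynomial.C (σ := σ)))] at h1
    obtain ⟨⟨⟨j, hj⟩, ⟨c, hc⟩⟩, h2⟩ := h1
    rw [one_mul] at h2
    simp only [MvPolynomial.algebraMap_def] at h2
    have h3 := MvPolynomial.map_injective _ (IsFractionRing.injective A K) h2
    obtain ⟨s, hs, rfl⟩ := hc
    have h4 := hJ s (by rw [h3]; exact hj)
    exact nonZeroDivisors.ne_zero hs h4
  obtain ⟨M, hM, hle⟩ := Ideal.exists_le_maximal _ hne
  let _ : Field (MvPolynomial σ K ⧸ M) := Ideal.Quotient.field M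
  have hfin : Module.Finite K (MvPolynomial σ K ⧸ M) := finite_of_finite_type_of_isJacobsonRing _ _
  have hst : IsScalarTower A K (MvPolynomial σ K ⧸ M) := inferInstance
  refine ⟨MvPolynomial σ K ⧸ M, inferInstance, algebraMap A _, fun i =>
    Ideal.Quotient.mk M (MvPolynomial.X i), ?_, ?_, ?_⟩
  · rw [IsScalarTower.algebraMap_eq A K (MvPolynomial σ K ⧸ M)]
    exact (algebraMap K (MvPolynomial σ K ⧸ M)).injective.comp (IsFractionRing.injective A K)
  · intro q hq
    have h1 : algebraMap (MvPolynomial σ A) (MvPolynomial σ K) q ∈ M :=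
      hle (Ideal.mem_map_of_mem _ hq)
    have h2 : (Ideal.Quotient.mk M).comp (algebraMap (MvPolynomial σ A) (MvPolynomial σ K)) =
        MvPolynomial.eval₂Hom (algebraMap A (MvPolynomial σ K ⧸ M))
          (fun i => Ideal.Quotient.mk M (MvPolynomial.X i)) := by
      apply MvPolynomial.ringHom_ext
      · intro r
        simp only [RingHom.comp_apply, MvPolynomial.algebraMap_def, MvPolynomial.map_C,
          MvPolynomial.eval₂Hom_C]
        rfl
      · intro i
        simp only [RingHom.comp_apply, MvPolynomial.algebraMap_def, MvPolynomial.map_X,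
          MvPolynomial.eval₂Hom_X']
    have h3 := congrArg (fun f : MvPolynomial σ A →+* (MvPolynomial σ K ⧸ M) => f q) h2
    simp only [RingHom.comp_apply, MvPolynomial.coe_eval₂Hom] at h3
    rw [← h3]
    exact Ideal.Quotient.eq_zero_iff_mem.2 h1
  · intro i
    have h1 : IsAlgebraic K (Ideal.Quotient.mk M (MvPolynomial.X i)) :=
      Algebra.IsAlgebraic.isAlgebraic _
    have h2 := (IsFractionRing.isAlgebraic_iff A K (MvPolynomial σ K ⧸ M)).2 h1
    obtain ⟨p, hp, hpx⟩ := h2
    exact ⟨p, hp, by rw [← Polynomial.aeval_def]; exact hpx⟩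

/-- points of small height in the fibres -/
theorem selection {m : ℕ} {σ : Type} [Finite σ]
    (P : Set (MvPolynomial σ (MvPolynomial (Fin m) Qbar))) (I : Ideal (MvPolynomial (Fin m) Qbar)) :
    ∃ c C : ℝ, 0 ≤ c ∧ 0 ≤ C ∧ ∀ y : Fin m → Qbar, (∀ r ∈ I, MvPolynomial.eval y r = 0) →
      (∃ x : σ → Qbar, ∀ p ∈ P, MvPolynomial.eval₂ (MvPolynomial.eval y) x p = 0) →
      ∃ x : σ → Qbar, (∀ p ∈ P, MvPolynomial.eval₂ (MvPolynomial.eval y) x p = 0) ∧
        ∀ i, absLogHeight ![1, x i] ≤ c * absLogHeight (aff y) + C := by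
  cases nonempty_fintype σ
  induction I using WellFoundedGT.induction with
  | ind I ih =>
  -- splitting off a closed subset
  have hsplit : ∀ a, a ∉ I → ∃ c C : ℝ, 0 ≤ c ∧ 0 ≤ C ∧ ∀ y : Fin m → Qbar,
      (∀ r ∈ I, MvPolynomial.eval y r = 0) → MvPolynomial.eval y a = 0 →
      (∃ x : σ → Qbar, ∀ p ∈ P, MvPolynomial.eval₂ (MvPolynomial.eval y) x p = 0) →
      ∃ x : σ → Qbar, (∀ p ∈ P, MvPolynomial.eval₂ (MvPolynomial.eval y) x p = 0) ∧
        ∀ i, absLogHeight ![1, x i] ≤ c * absLogHeight (aff y) + C := by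
    intro a ha
    have hlt : I < I ⊔ Ideal.span {a} := by
      refine lt_of_le_of_ne le_sup_left fun h => ha ?_
      rw [h]
      exact Ideal.mem_sup_right (Ideal.mem_span_singleton_self a)
    obtain ⟨c, C, hc, hC, h⟩ := ih _ hlt
    refine ⟨c, C, hc, hC, fun y hy hya => h y ?_⟩
    have hle : I ⊔ Ideal.span {a} ≤ RingHom.ker (MvPolynomial.eval y) := by
      rw [sup_le_iff, Ideal.span_singleton_le_iff_mem]
      exact ⟨fun r hr => hy r hr, hya⟩
    exact fun r hr => hle hr
  by_cases htop : I = ⊤
  · refine ⟨0, 0, le_rfl, le_rfl, fun y hy => ?_⟩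
    have := hy 1 (by rw [htop]; trivial)
    simp at this
  by_cases hprime : I.IsPrime
  · let A := MvPolynomial (Fin m) Qbar ⧸ I
    let J : Ideal (MvPolynomial σ A) := Ideal.span (MvPolynomial.map (Ideal.Quotient.mk I) '' P)
    by_cases hJ : ∀ s : A, MvPolynomial.C s ∈ J → s = 0
    · -- the generic fibre is not empty
      obtain ⟨L, _, θ, x, hθ, hx, hp⟩ := generic J hJ
      choose p hp0 hp using hp
      have hlift : ∀ i, ∃ p' : Polynomial (MvPolynomial (Fin m) Qbar),
          p'.map (Ideal.Quotient.mk I) = p i ∧ p'.natDegree = (p i).natDegree := fun i =>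
        Polynomial.exists_natDegree_eq_of_mem_lifts
          ((Polynomial.mem_lifts _).2 (Polynomial.map_surjective _ Ideal.Quotient.mk_surjective _))
      choose p' hp' hdeg using hlift
      let θ' : MvPolynomial (Fin m) Qbar →+* L := θ.comp (Ideal.Quotient.mk I)
      have hθ' : ∀ r, θ' r = 0 ↔ r ∈ I := by
        intro r
        rw [← Ideal.Quotient.eq_zero_iff_mem]
        exact ⟨fun h => hθ (by rw [map_zero]; exact h), fun h => by
          show θ _ = 0
          rw [h, map_zero]⟩
      have hlead : ∀ i, (p' i).leadingCoeff ∉ I := by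
        intro i hi
        apply hp0 i
        rw [← Polynomial.leadingCoeff_eq_zero, Polynomial.leadingCoeff, ← hdeg i, ← hp' i,
          Polynomial.coeff_map]
        exact Ideal.Quotient.eq_zero_iff_mem.2 hi
      set a := ∏ i, (p' i).leadingCoeff with ha
      have haI : a ∉ I := by
        intro h
        obtain ⟨i, -, hi⟩ := (hprime.prod_mem_iff).1 h
        exact hlead i hi
      obtain ⟨c₁, C₁, hc₁, hC₁, h₁⟩ := hsplit a haI
      -- heights
      choose D₀ C₀ hC₀ using fun i => poly_bound
        (fun k : Fin ((p' i).natDegree + 1) => (p' i).coeff k)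
      choose C₂ hC₂ using fun i => absLogHeight_root (p' i).natDegree
      refine ⟨c₁ + ∑ i, (D₀ i : ℝ), C₁ + ∑ i, (|C₀ i| + |C₂ i|), by positivity, by positivity,
        fun y hy hex => ?_⟩
      have hHy := absLogHeight_nonneg (aff y)
      by_cases hya : MvPolynomial.eval y a = 0
      · obtain ⟨x', hx', hh⟩ := h₁ y hy hya hex
        refine ⟨x', hx', fun i => (hh i).trans ?_⟩
        have h2 : 0 ≤ ∑ i, (D₀ i : ℝ) := by positivity
        have h3 : 0 ≤ ∑ i, (|C₀ i| + |C₂ i|) := by positivity
        nlinarith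
      · obtain ⟨x', hx'⟩ := spec θ' x p' (fun i => by
            have h2 := hp i
            rw [← hp' i, Polynomial.eval₂_map] at h2
            exact h2) a (fun i => Finset.dvd_prod_of_mem _ (Finset.mem_univ i))
          (fun h => haI ((hθ' a).1 h)) (MvPolynomial.eval y) (fun r hr => hy r ((hθ' r).1 hr)) hya
        refine ⟨x', fun q hq => hx' q ?_, fun i => ?_⟩
        · have h2 := hx (MvPolynomial.map (Ideal.Quotient.mk I) q)
            (Ideal.subset_span ⟨q, hq, rfl⟩)
          rw [MvPolynomial.eval₂_map] at h2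
          exact h2
        · have h2 : Polynomial.eval₂ (MvPolynomial.eval y) (x' i) (p' i) = 0 := by
            have h3 := hx' (Polynomial.eval₂ MvPolynomial.C (MvPolynomial.X i) (p' i)) (by
              rw [← MvPolynomial.coe_eval₂Hom, Polynomial.hom_eval₂, MvPolynomial.eval₂Hom_comp_C,
                MvPolynomial.eval₂Hom_X']
              have h2 := hp i
              rw [← hp' i, Polynomial.eval₂_map] at h2
              exact h2)
            rw [← MvPolynomial.coe_eval₂Hom, Polynomial.hom_eval₂, MvPolynomial.eval₂Hom_comp_C,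
                MvPolynomial.eval₂Hom_X'] at h3
            exact h3
          have h4 : ((p' i).map (MvPolynomial.eval y)) ≠ 0 := by
            intro h
            have h5 := congrArg (fun q => Polynomial.coeff q (p' i).natDegree) h
            simp only [Polynomial.coeff_map, Polynomial.coeff_zero] at h5
            apply hya
            obtain ⟨b, hb⟩ : (p' i).leadingCoeff ∣ a := Finset.dvd_prod_of_mem _ (Finset.mem_univ i)
            rw [hb, map_mul, Polynomial.leadingCoeff, h5, zero_mul]
          have h5 := hC₂ i ((p' i).map (MvPolynomial.eval y)) (x' i) h4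
            Polynomial.natDegree_map_le (by rw [Polynomial.eval_map]; exact h2)
          have h6 := hC₀ i y
          have h7 : cv (p' i).natDegree ((p' i).map (MvPolynomial.eval y)) =
              fun k : Fin ((p' i).natDegree + 1) => MvPolynomial.eval y ((p' i).coeff k) := by
            funext k
            simp [cv, Polynomial.coeff_map]
          rw [h7] at h5
          have h8 : (D₀ i : ℝ) ≤ ∑ i, (D₀ i : ℝ) :=
            Finset.single_le_sum (f := fun i => (D₀ i : ℝ)) (fun i _ => by positivity)
              (Finset.mem_univ i)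
          have h9 : |C₀ i| + |C₂ i| ≤ ∑ i, (|C₀ i| + |C₂ i|) :=
            Finset.single_le_sum (f := fun i => |C₀ i| + |C₂ i|) (fun i _ => by positivity)
              (Finset.mem_univ i)
          have h10 := le_abs_self (C₀ i)
          have h11 := le_abs_self (C₂ i)
          nlinarith [mul_le_mul_of_nonneg_right h8 hHy, mul_nonneg hc₁ hHy]
    · -- the generic fibre is empty
      push Not at hJ
      obtain ⟨s, hsJ, hs⟩ := hJ
      obtain ⟨a, rfl⟩ := Ideal.Quotient.mk_surjective s
      have haI : a ∉ I := fun h => hs (Ideal.Quotient.eq_zero_iff_mem.2 h)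
      obtain ⟨c₁, C₁, hc₁, hC₁, h₁⟩ := hsplit a haI
      refine ⟨c₁, C₁, hc₁, hC₁, fun y hy hex => h₁ y hy ?_ hex⟩
      obtain ⟨x, hx⟩ := hex
      let φ : A →+* Qbar := Ideal.Quotient.lift I (MvPolynomial.eval y) hy
      have hle : J ≤ RingHom.ker (MvPolynomial.eval₂Hom φ x) := by
        rw [Ideal.span_le]
        rintro _ ⟨q, hq, rfl⟩
        rw [SetLike.mem_coe, RingHom.mem_ker, MvPolynomial.coe_eval₂Hom, MvPolynomial.eval₂_map]
        have h2 : φ.comp (Ideal.Quotient.mk I) = MvPolynomial.eval y :=
          Ideal.Quotient.lift_comp_mk I _ hy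
        rw [h2]
        exact hx q hq
      have h2 := hle hsJ
      rw [RingHom.mem_ker, MvPolynomial.coe_eval₂Hom, MvPolynomial.eval₂_C] at h2
      exact h2
  · -- reducible case
    obtain ⟨a, b, hab, ha, hb⟩ : ∃ a b, a * b ∈ I ∧ a ∉ I ∧ b ∉ I := by
      by_contra hcon
      push Not at hcon
      exact hprime ⟨htop, fun {a b} hab => or_iff_not_imp_left.2 fun ha => hcon a b hab ha⟩
    obtain ⟨c₁, C₁, hc₁, hC₁, h₁⟩ := hsplit a ha
    obtain ⟨c₂, C₂, hc₂, hC₂, h₂⟩ := hsplit b hb
    refine ⟨c₁ + c₂, C₁ + C₂, by positivity, by positivity, fun y hy hex => ?_⟩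
    have hHy := absLogHeight_nonneg (aff y)
    have h3 : MvPolynomial.eval y a = 0 ∨ MvPolynomial.eval y b = 0 := by
      have := hy _ hab
      rwa [map_mul, mul_eq_zero] at this
    rcases h3 with h3 | h3
    · obtain ⟨x', hx', hh⟩ := h₁ y hy h3 hex
      exact ⟨x', hx', fun i => (hh i).trans (by nlinarith)⟩
    · obtain ⟨x', hx', hh⟩ := h₂ y hy h3 hex
      exact ⟨x', hx', fun i => (hh i).trans (by nlinarith)⟩

end Pool.Agent.U770.MH
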